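import Mathlib

set_option linter.all false

namespace Pool.Agent.Results.MP_c33da0_al.BoundedImages

open scoped commutatorElement

/-! ## Powers of the letters generate a free group -/

theorem head_cons {α : Type*} [DecidableEq α] (b : α) (e : Bool) (w : FreeGroup α)
    (h : w.toWord.head? ≠ some (b, !e)) :
    (FreeGroup.mk [(b, e)] * w).toWord = (b, e) :: w.toWord := by
  have hred : FreeGroup.IsReduced ((b, e) :: w.toWord) := by
    cases hw : w.toWord with
    | nil => exact FreeGroup.IsReduced.singleton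
    | cons c L =>
      rw [FreeGroup.isReduced_cons_cons]
      refine ⟨fun h1 => ?_, ?_⟩
      · rw [hw] at h
        by_contra h2
        apply h
        simp only [List.head?_cons, Option.some.injEq]
        ext
        · exact h1.symm
        · simp only at h1 h2 ⊢
          cases e <;> cases hc : c.2 <;> simp_all
      · rw [← hw]; exact FreeGroup.isReduced_toWord
  have : FreeGroup.mk [(b, e)] * w = FreeGroup.mk ((b, e) :: w.toWord) := by
    conv_lhs => rw [← FreeGroup.mk_toWord (x := w)]
    rw [FreeGroup.mul_mk]; rfl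
  rw [this, FreeGroup.toWord_mk, hred.reduce_eq]

theorem head_pow {α : Type*} [DecidableEq α] (b : α) (e : Bool) (w : FreeGroup α)
    (h : w.toWord.head? ≠ some (b, !e)) (n : ℕ) (hn : 1 ≤ n) :
    ((FreeGroup.mk [(b, e)]) ^ n * w).toWord.head? = some (b, e) := by
  induction n, hn using Nat.le_induction with
  | base => rw [pow_one, head_cons b e w h]; rfl
  | succ n hn ih =>
    rw [pow_succ', mul_assoc, head_cons b e _ (by rw [ih]; intro h'; injection h' with h'; injection h' with h1 h2; cases e <;> simp at h2)]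
    rfl

open scoped Pointwise in
theorem lift_pow_injective {α : Type*} [DecidableEq α] [Nontrivial α] (n : α → ℕ) (hn : ∀ a, 1 ≤ n a) :
    Function.Injective (FreeGroup.lift fun a : α => (FreeGroup.of a) ^ n a) := by
  apply FreeGroup.injective_lift_of_ping_pong (α := FreeGroup α) (fun a : α => (FreeGroup.of a) ^ n a)
    (fun a => {w | w.toWord.head? = some (a, true)}) (fun a => {w | w.toWord.head? = some (a, false)})
  · intro a
    exact ⟨FreeGroup.of a, by simp [FreeGroup.toWord_of]⟩
  · intro a b hab
    rw [Function.onFun, Set.disjoint_left]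
    intro w h1 h2
    simp only [Set.mem_setOf_eq] at h1 h2
    rw [h1] at h2; injection h2 with h2; injection h2 with h3 h4; exact hab h3
  · intro a b hab
    rw [Function.onFun, Set.disjoint_left]
    intro w h1 h2
    simp only [Set.mem_setOf_eq] at h1 h2
    rw [h1] at h2; injection h2 with h2; injection h2 with h3 h4; exact hab h3
  · intro a b
    rw [Set.disjoint_left]
    intro w h1 h2
    simp only [Set.mem_setOf_eq] at h1 h2
    rw [h1] at h2; injection h2 with h2; injection h2 with h3 h4; simp at h4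
  · intro a w hw
    obtain ⟨v, hv, rfl⟩ := Set.mem_smul_set.1 hw
    exact head_pow a true v hv (n a) (hn a)
  · intro a w hw
    obtain ⟨v, hv, rfl⟩ := Set.mem_smul_set.1 hw
    have : ((fun a : α => (FreeGroup.of a) ^ n a)⁻¹ a) = (FreeGroup.mk [(a, false)]) ^ n a := by
      simp only [Pi.inv_apply]
      rw [← inv_pow]; rfl
    rw [this]
    exact head_pow a false v hv (n a) (hn a)


/-! ## Two pairs of elements of the free group of rank two -/

abbrev E2 := FreeGroup Bool

/-- the automorphism of the free group on `true`, `false` with `c ↦ d * c` for the letter `c` and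
fixing the other letter `d` -/
def shear (c : Bool) : E2 ≃* E2 :=
  MonoidHom.toMulEquiv
    (FreeGroup.lift fun b => if b = c then FreeGroup.of (!c) * FreeGroup.of c else FreeGroup.of b)
    (FreeGroup.lift fun b => if b = c then (FreeGroup.of (!c))⁻¹ * FreeGroup.of c else FreeGroup.of b)
    (by ext b; cases b <;> cases c <;> simp)
    (by ext b; cases b <;> cases c <;> simp)

theorem shear_self (c : Bool) : shear c (FreeGroup.of c) = FreeGroup.of (!c) * FreeGroup.of c := by
  simp [shear]

/-- For the letters `c` and `d` of the free group of rank two, `c ↦ c`, `d ↦ [d, c] ^ n` defines an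
injective endomorphism. -/
theorem pair_injective (c : Bool) (n : ℕ) (hn : 1 ≤ n) :
    Function.Injective (FreeGroup.lift (fun b : Bool =>
      if b = c then (FreeGroup.of c : E2) else ⁅(FreeGroup.of (!c) : E2), FreeGroup.of c⁆ ^ n)) := by
  set f := FreeGroup.lift (fun b : Bool =>
      if b = c then (FreeGroup.of c : E2) else ⁅(FreeGroup.of (!c) : E2), FreeGroup.of c⁆ ^ n) with hf
  let θ : Multiplicative ℤ →* MulAut E2 := zpowersHom (MulAut E2) (shear c)
  let Ψ : E2 →* E2 ⋊[θ] Multiplicative ℤ :=
    FreeGroup.lift (fun b : Bool => if b = c then SemidirectProduct.inl (FreeGroup.of c)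
      else SemidirectProduct.inr (Multiplicative.ofAdd 1))
  have hθ : θ (Multiplicative.ofAdd 1) = shear c := by simp [θ]
  have hcomm : ⁅(SemidirectProduct.inr (Multiplicative.ofAdd (1 : ℤ)) : E2 ⋊[θ] Multiplicative ℤ),
      SemidirectProduct.inl (φ := θ) (FreeGroup.of c)⁆ = SemidirectProduct.inl (φ := θ) (FreeGroup.of (!c)) := by
    rw [commutatorElement_def, ← MonoidHom.map_inv SemidirectProduct.inr, ← SemidirectProduct.inl_aut, hθ]
    have h5 : (shear c : MulAut E2) (FreeGroup.of c) = FreeGroup.of (!c) * FreeGroup.of c := shear_self c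
    rw [h5, MonoidHom.map_mul, mul_inv_cancel_right]
  have hcomp : Ψ.comp f = (SemidirectProduct.inl (φ := θ)).comp (FreeGroup.lift fun b : Bool =>
      (FreeGroup.of b) ^ (if b = c then 1 else n)) := by
    ext b : 1
    by_cases hb : b = c
    · subst hb; simp [hf, Ψ]
    · have hb' : b = !c := by cases b <;> cases c <;> simp_all
      subst hb'
      simp only [MonoidHom.comp_apply, hf, FreeGroup.lift_apply_of, hb, if_false, map_pow, map_commutatorElement, Ψ, if_true]
      rw [hcomm]
  have hinj : Function.Injective (Ψ.comp f) := by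
    rw [hcomp]
    refine SemidirectProduct.inl_injective.comp ?_
    exact lift_pow_injective (fun b : Bool => if b = c then 1 else n) (fun b => by split_ifs <;> omega)
  intro x y hxy
  apply hinj
  simp only [MonoidHom.comp_apply]
  rw [hxy]

/-- There is a group with a two-sided sequence, shifted by conjugation with one element, of
nontrivial elements `a i` with `a (i+1) = [a i, a (i+2)] ^ n`. -/
theorem exists_seq (n : ℕ) (hn : 1 ≤ n) : ∃ (H : Type) (_ : Group H) (s p : H), p ≠ 1 ∧
    s * p * s⁻¹ = ⁅p, s ^ 2 * p * (s ^ 2)⁻¹⁆ ^ n := by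
  -- `f1` : true ↦ p, false ↦ [p,q]^n ; `f2` : true ↦ [p,q]^n, false ↦ q
  let p : E2 := FreeGroup.of true
  let q : E2 := FreeGroup.of false
  let w : E2 := ⁅p, q⁆ ^ n
  let f1 : E2 →* E2 := FreeGroup.lift (fun b : Bool => if b = true then p else w)
  let f2 : E2 →* E2 := FreeGroup.lift (fun b : Bool => if b = false then q else w)
  have h2 : Function.Injective f2 := pair_injective false n hn
  have h1 : Function.Injective f1 := by
    have h0 := pair_injective true n hn
    -- precompose with the automorphism inverting the letter `false`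
    let ι : E2 ≃* E2 := MonoidHom.toMulEquiv
      (FreeGroup.lift fun b : Bool => if b = true then FreeGroup.of true else (FreeGroup.of false)⁻¹)
      (FreeGroup.lift fun b : Bool => if b = true then FreeGroup.of true else (FreeGroup.of false)⁻¹)
      (by ext b; cases b <;> simp) (by ext b; cases b <;> simp)
    have h3 : f1 = (FreeGroup.lift (fun b : Bool =>
      if b = true then (FreeGroup.of true : E2) else ⁅(FreeGroup.of (!true) : E2), FreeGroup.of true⁆ ^ n)).comp ι.toMonoidHom := by
      ext b
      cases b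
      · simp only [f1, ι, w, p, q, FreeGroup.lift_apply_of, MonoidHom.comp_apply, MulEquiv.coe_toMonoidHom,
          MonoidHom.toMulEquiv_apply, Bool.false_eq_true, if_false, map_inv, Bool.not_true]
        rw [← inv_pow, commutatorElement_inv]
      · simp [f1, ι, p]
    rw [h3]
    exact h0.comp ι.injective
  let φ : f1.range ≃* f2.range := (MonoidHom.ofInjective h1).symm.trans (MonoidHom.ofInjective h2)
  have hφ : ∀ x : E2, φ ⟨f1 x, ⟨x, rfl⟩⟩ = ⟨f2 x, ⟨x, rfl⟩⟩ := by
    intro x
    have : (MonoidHom.ofInjective h1).symm ⟨f1 x, ⟨x, rfl⟩⟩ = x := by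
      rw [MulEquiv.symm_apply_eq]; rfl
    simp only [φ, MulEquiv.trans_apply, this]; rfl
  let s : HNNExtension E2 f1.range f2.range φ := HNNExtension.t
  have hs : ∀ x : E2, s * HNNExtension.of (f1 x) * s⁻¹ = HNNExtension.of (f2 x) := by
    intro x
    have h := HNNExtension.t_mul_of (φ := φ) ⟨f1 x, ⟨x, rfl⟩⟩
    rw [hφ] at h
    simp only at h
    rw [show s * HNNExtension.of (f1 x) = HNNExtension.of (f2 x) * s from h]
    group
  have e1 : s * HNNExtension.of p * s⁻¹ = HNNExtension.of w := by
    have := hs (FreeGroup.of true)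
    simpa [f1, f2] using this
  have e2 : s * HNNExtension.of w * s⁻¹ = HNNExtension.of q := by
    have := hs (FreeGroup.of false)
    simpa [f1, f2] using this
  refine ⟨HNNExtension E2 f1.range f2.range φ, inferInstance, s, HNNExtension.of p, ?_, ?_⟩
  · intro h
    have : p = 1 := HNNExtension.of_injective (φ := φ) (by rw [h, map_one])
    exact FreeGroup.of_ne_one true this
  · have e3 : s ^ 2 * HNNExtension.of p * (s ^ 2)⁻¹ = HNNExtension.of q := by
      rw [← e2, ← e1, pow_two, mul_inv_rev]; group
    rw [e3, e1]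
    simp only [w, map_pow, map_commutatorElement]

/-! ## Sequences `a (i+1) = [a i, a (i+2)] ^ n` in free groups and in layered groups -/

/-- In a free group a two-sided sequence with `a (i+1) = [a i, a (i+2)] ^ n` is trivial. -/
theorem seq_free {F : Type*} [Group F] [IsFreeGroup F] (n : ℕ) (a : ℤ → F)
    (ha : ∀ i, a (i + 1) = ⁅a i, a (i + 2)⁆ ^ n) : ∀ i, a i = 1 := by
  let P : Subgroup F := Subgroup.closure (Set.range a)
  have hmem : ∀ i, a i ∈ P := fun i => Subgroup.subset_closure ⟨i, rfl⟩
  haveI : IsFreeGroup P := inferInstance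
  obtain ⟨ι, b⟩ : ∃ ι : Type _, Nonempty (FreeGroupBasis ι P) := by
    obtain ⟨ι, ⟨b⟩⟩ := IsFreeGroup.nonempty_basis (G := P)
    exact ⟨ι, ⟨b⟩⟩
  obtain ⟨b⟩ := b
  -- every homomorphism from `P` to a commutative group is trivial
  have key : ∀ (h : P →* Multiplicative ℤ) (x : P), h x = 1 := by
    intro h x
    have hgen : ∀ i, h ⟨a i, hmem i⟩ = 1 := by
      intro i
      have e : (⟨a i, hmem i⟩ : P) = ⁅(⟨a (i - 1), hmem _⟩ : P), ⟨a (i + 1), hmem _⟩⁆ ^ n := by
        ext
        have := ha (i - 1)
        rw [show i - 1 + 1 = i by ring, show i - 1 + 2 = i + 1 by ring] at this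
        simpa [commutatorElement_def] using this
      rw [e, MonoidHom.map_pow, map_commutatorElement, commutatorElement_eq_one_iff_mul_comm.2 (mul_comm _ _), one_pow]
    obtain ⟨x, hx⟩ := x
    induction hx using Subgroup.closure_induction with
    | mem x hx => obtain ⟨i, rfl⟩ := hx; exact hgen i
    | one => exact h.map_one
    | mul x y hx hy h1 h2 =>
      have : (⟨x * y, P.mul_mem hx hy⟩ : P) = ⟨x, hx⟩ * ⟨y, hy⟩ := rfl
      rw [this, h.map_mul, h1, h2, one_mul]
    | inv x hx h1 =>
      have : (⟨x⁻¹, P.inv_mem hx⟩ : P) = (⟨x, hx⟩ : P)⁻¹ := rfl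
      rw [this, h.map_inv, h1, inv_one]
  have hempty : IsEmpty ι := by
    constructor
    intro y
    have h1 := key (b.lift (fun _ => Multiplicative.ofAdd (1 : ℤ))) (b y)
    have h2 : (b.lift (fun _ => Multiplicative.ofAdd (1 : ℤ))) (b y) = Multiplicative.ofAdd (1 : ℤ) := by
      simp
    rw [h2] at h1
    exact one_ne_zero (Multiplicative.ofAdd.injective h1)
  intro i
  have h2 : (⟨a i, hmem i⟩ : P) = 1 := by
    apply b.repr.injective
    haveI : Subsingleton (FreeGroup ι) := inferInstance
    exact Subsingleton.elim _ _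
  exact congrArg Subtype.val h2

/-- `Layered M Q`: there is a finite chain of subgroups from the whole group down to the trivial
group, each normal in the one before, such that every quotient of consecutive members is abelian
or finite of order at most `M`. -/
def Layered (M : ℕ) (Q : Type*) [Group Q] : Prop :=
  ∃ (n : ℕ) (H : ℕ → Subgroup Q), H 0 = ⊤ ∧ H n = ⊥ ∧ ∀ i < n, H (i + 1) ≤ H i ∧
    ((H (i + 1)).subgroupOf (H i)).Normal ∧
    ((∀ a ∈ H i, ∀ b ∈ H i, a * b * a⁻¹ * b⁻¹ ∈ H (i + 1)) ∨
      ((H (i + 1)).relIndex (H i) ≠ 0 ∧ (H (i + 1)).relIndex (H i) ≤ M))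

theorem seq_layered {M : ℕ} {Q : Type*} [Group Q] (hQ : Layered M Q) (a : ℤ → Q)
    (ha : ∀ i, a (i + 1) = ⁅a i, a (i + 2)⁆ ^ (Nat.factorial M)) : ∀ i, a i = 1 := by
  obtain ⟨n, H, h0, hn, hH⟩ := hQ
  have key : ∀ k ≤ n, ∀ i, a i ∈ H k := by
    intro k
    induction k with
    | zero => intro _ i; rw [h0]; trivial
    | succ k ih =>
      intro hk i
      have ih' := ih (by omega)
      obtain ⟨h1, h2, h3⟩ := hH k (by omega)
      have e : a i = ⁅a (i - 1), a (i + 1)⁆ ^ (Nat.factorial M) := by
        have := ha (i - 1)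
        rwa [show i - 1 + 1 = i by ring, show i - 1 + 2 = i + 1 by ring] at this
      have hc : ⁅a (i - 1), a (i + 1)⁆ ∈ H k := by
        rw [commutatorElement_def]
        exact (H k).mul_mem ((H k).mul_mem ((H k).mul_mem (ih' _) (ih' _)) ((H k).inv_mem (ih' _))) ((H k).inv_mem (ih' _))
      rw [e]
      rcases h3 with h3 | ⟨h3, h4⟩
      · exact (H (k + 1)).pow_mem (h3 _ (ih' _) _ (ih' _)) _
      · haveI := h2
        have h5 := Subgroup.pow_index_mem ((H (k + 1)).subgroupOf (H k)) (⟨_, hc⟩ : H k)
        rw [Subgroup.mem_subgroupOf] at h5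
        simp only [SubgroupClass.coe_pow] at h5
        change ⁅a (i - 1), a (i + 1)⁆ ^ ((H (k + 1)).relIndex (H k)) ∈ H (k + 1) at h5
        obtain ⟨c, hc'⟩ : (H (k + 1)).relIndex (H k) ∣ Nat.factorial M :=
          Nat.dvd_factorial (Nat.pos_of_ne_zero h3) h4
        rw [hc', pow_mul]
        exact (H (k + 1)).pow_mem h5 _
  intro i
  have := key n le_rfl i
  rwa [hn, Subgroup.mem_bot] at this

theorem seq_lcs {G : Type*} [Group G] (n : ℕ) (a : ℤ → G)
    (ha : ∀ i, a (i + 1) = ⁅a i, a (i + 2)⁆ ^ n) :
    ∀ k i, a i ∈ (⊤ : Subgroup G).lowerCentralSeries k := by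
  intro k
  induction k with
  | zero => intro i; rw [Subgroup.lowerCentralSeries_zero]; trivial
  | succ k ih =>
    intro i
    have e : a i = ⁅a (i - 1), a (i + 1)⁆ ^ n := by
      have := ha (i - 1)
      rwa [show i - 1 + 1 = i by ring, show i - 1 + 2 = i + 1 by ring] at this
    rw [e, Subgroup.lowerCentralSeries_succ]
    exact Subgroup.pow_mem _ (Subgroup.commutator_mem_commutator (ih _) (Subgroup.mem_top _)) _

/-! ## One-relator groups of height one -/

/-- the one-relator group with the letters `X` and the relator `r` -/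
abbrev OneRel {X : Type*} (r : FreeGroup X) : Type _ := PresentedGroup {r}

/-- `r` is a member of some basis of the free group -/
def IsPrimitive {X : Type*} (r : FreeGroup X) : Prop :=
  ∃ (φ : FreeGroup X ≃* FreeGroup X) (x : X), r = φ (FreeGroup.of x)

/-- height 0: a power of a primitive element -/
def HeightZero {X : Type*} (r : FreeGroup X) : Prop :=
  ∃ (p : FreeGroup X) (n : ℤ), IsPrimitive p ∧ r = p ^ n

/-- the letters `x_i` with `x ≠ t` and `lo x ≤ i ≤ hi x` of the base group -/
abbrev Window {X : Type*} (t : X) (lo hi : {x : X // x ≠ t} → ℤ) : Type _ :=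
  {p : {x : X // x ≠ t} × ℤ // lo p.1 ≤ p.2 ∧ p.2 ≤ hi p.1}

/-- `x_i ↦ t ^ i * x * t ^ (-i)` -/
def unwind {X : Type*} (t : X) (lo hi : {x : X // x ≠ t} → ℤ) :
    FreeGroup (Window t lo hi) →* FreeGroup X :=
  FreeGroup.lift fun p => FreeGroup.of t ^ p.1.2 * FreeGroup.of (p.1.1 : X) * (FreeGroup.of t ^ p.1.2)⁻¹

/-- `s` is a Magnus-Moldavanskii rewriting of the relator `r` with respect to the stable letter
`t` (which then has exponent sum 0 in `r`): `s` is a cyclically reduced word in the letters `x_i`
which becomes conjugate to `r` on reading `x_i` as `t ^ i * x * t ^ (-i)`, the range of indices is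
the smallest possible one for every `x`, and `t` really occurs. -/
structure Rewriting {X : Type*} [DecidableEq X] (t : X) (lo hi : {x : X // x ≠ t} → ℤ)
    (r : FreeGroup X) (s : FreeGroup (Window t lo hi)) : Prop where
  le : ∀ x, lo x ≤ hi x
  cyc : FreeGroup.IsCyclicallyReduced s.toWord
  conj : IsConj (unwind t lo hi s) r
  least : ∀ x, lo x < hi x → ∃ p ∈ s.toWord, p.1.1 = (x, lo x)
  greatest : ∀ x, lo x < hi x → ∃ p ∈ s.toWord, p.1.1 = (x, hi x)
  move : ∃ x, lo x < hi x

/-- height 1: not of height 0, but one Magnus-Moldavanskii step leads to a relator of height 0 -/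
def HeightOne {X : Type*} [DecidableEq X] (r : FreeGroup X) : Prop :=
  ¬ HeightZero r ∧ ∃ (t : X) (lo hi : {x : X // x ≠ t} → ℤ) (s : FreeGroup (Window t lo hi)),
    Rewriting t lo hi r s ∧ HeightZero s

/-- parafree: residually nilpotent with the lower central quotients of a free group -/
def Parafree (G : Type) [Group G] : Prop :=
  (⨅ n : ℕ, (⊤ : Subgroup G).lowerCentralSeries n = ⊥) ∧
    ∃ (ι : Type), ∀ n : ℕ, Nonempty
      ((G ⧸ (⊤ : Subgroup G).lowerCentralSeries n) ≃*
        (FreeGroup ι ⧸ (⊤ : Subgroup (FreeGroup ι)).lowerCentralSeries n))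

/-! ### The relators -/

/-- `x_i = t ^ i * x * t ^ (-i)` with `t = none`, `x = some 0` -/
def xi (k : ℕ) (i : ℤ) : FreeGroup (Option (Fin (k + 1))) :=
  FreeGroup.of none ^ i * FreeGroup.of (some 0) * (FreeGroup.of none ^ i)⁻¹

/-- the relator `x_1 ^ (-1) * [x_0, x_2] ^ n` on the letters `t, x, y_1, .., y_k` -/
def rel (k n : ℕ) : FreeGroup (Option (Fin (k + 1))) :=
  (xi k 1)⁻¹ * (xi k 0 * xi k 2 * (xi k 0)⁻¹ * (xi k 2)⁻¹) ^ n

/-- the homomorphism from the free group of rank `k + 1` onto the subgroup generated by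
`t, y_1, .., y_k` -/
def sec (k n : ℕ) : FreeGroup (Fin (k + 1)) →* OneRel (rel k n) :=
  FreeGroup.lift fun i => if i = 0 then PresentedGroup.of none else PresentedGroup.of (some i)

theorem seq_rel {k n : ℕ} {Q : Type*} [Group Q] (f : OneRel (rel k n) →* Q) (i : ℤ) :
    f (PresentedGroup.mk _ (xi k (i + 1))) =
      ⁅f (PresentedGroup.mk _ (xi k i)), f (PresentedGroup.mk _ (xi k (i + 2)))⁆ ^ n := by
  have h0 : PresentedGroup.mk {rel k n} ((xi k 1)⁻¹ *
      (xi k 0 * xi k 2 * (xi k 0)⁻¹ * (xi k 2)⁻¹) ^ n) = 1 :=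
    PresentedGroup.one_of_mem (rfl : rel k n = rel k n)
  have h1 : PresentedGroup.mk {rel k n} (xi k 1) =
      ⁅PresentedGroup.mk {rel k n} (xi k 0), PresentedGroup.mk {rel k n} (xi k 2)⁆ ^ n := by
    rw [MonoidHom.map_mul, MonoidHom.map_inv, MonoidHom.map_pow] at h0
    rw [inv_mul_eq_one.1 h0]
    simp only [commutatorElement_def, MonoidHom.map_mul, MonoidHom.map_inv]
  have sh : ∀ j : ℤ, xi k (i + j) = FreeGroup.of none ^ i * xi k j * (FreeGroup.of none ^ i)⁻¹ := by
    intro j
    simp only [xi, zpow_add]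
    group
  set u : Q := f (PresentedGroup.mk {rel k n} (FreeGroup.of none ^ i)) with hu
  have e : ∀ j : ℤ, f (PresentedGroup.mk {rel k n} (xi k (i + j))) =
      u * f (PresentedGroup.mk {rel k n} (xi k j)) * u⁻¹ := by
    intro j
    rw [sh j]
    simp only [MonoidHom.map_mul, MonoidHom.map_inv, hu]
  have e0 := e 0
  rw [add_zero] at e0
  rw [e 1, e0, e 2, h1]
  simp only [MonoidHom.map_pow, map_commutatorElement]
  rw [← conjugate_commutatorElement, ← conj_pow]

theorem mk_xi_zero (k n : ℕ) : PresentedGroup.mk {rel k n} (xi k 0) = PresentedGroup.of (some 0) := by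
  simp [xi]; rfl

/-- the homomorphism to a group `Q` which sends `t`, `x`, `y_i` to given elements `u`, `v`, `c i`
satisfying the relation -/
theorem exists_hom {k n : ℕ} {Q : Type*} [Group Q] (u v : Q) (c : Fin (k + 1) → Q)
    (h : u * v * u⁻¹ = ⁅v, u ^ 2 * v * (u ^ 2)⁻¹⁆ ^ n) :
    ∃ f : OneRel (rel k n) →* Q, f (PresentedGroup.of none) = u ∧ f (PresentedGroup.of (some 0)) = v ∧
      ∀ i ≠ 0, f (PresentedGroup.of (some i)) = c i := by
  let g : Option (Fin (k + 1)) → Q := fun o => o.elim u (fun i => if i = 0 then v else c i)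
  have hx : ∀ i : ℤ, FreeGroup.lift g (xi k i) = u ^ i * v * (u ^ i)⁻¹ := by
    intro i; simp [xi, g]
  have hg : ∀ r ∈ ({rel k n} : Set (FreeGroup (Option (Fin (k + 1))))), FreeGroup.lift g r = 1 := by
    intro r hr
    rw [Set.mem_singleton_iff] at hr
    subst hr
    rw [rel]
    simp only [MonoidHom.map_mul, MonoidHom.map_inv, MonoidHom.map_pow, hx]
    rw [inv_mul_eq_one, zpow_zero, zpow_one, one_mul, inv_one, mul_one, h, commutatorElement_def]
    simp only [zpow_ofNat]
  refine ⟨PresentedGroup.toGroup hg, ?_, ?_, ?_⟩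
  · rw [PresentedGroup.toGroup.of]; rfl
  · rw [PresentedGroup.toGroup.of]; simp [g]
  · intro i hi
    rw [PresentedGroup.toGroup.of]; simp [g, hi]

theorem x_ne_one (k n : ℕ) (hn : 1 ≤ n) : PresentedGroup.mk {rel k n} (xi k 0) ≠ 1 := by
  intro h
  obtain ⟨H, _, s, p, hp, hs⟩ := exists_seq n hn
  obtain ⟨f, h1, h2, h3⟩ := exists_hom (k := k) s p (fun _ => 1) hs
  apply hp
  rw [← h2, ← mk_xi_zero k n, h, f.map_one]

theorem kill {M k : ℕ} {Q : Type*} [Group Q] (hQ : Layered M Q)
    (f : OneRel (rel k (Nat.factorial M)) →* Q) : f (PresentedGroup.of (some 0)) = 1 := by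
  rw [← mk_xi_zero]
  exact seq_layered hQ (fun i => f (PresentedGroup.mk _ (xi k i))) (seq_rel f) 0

theorem hom_ext_gen {k n : ℕ} {Q : Type*} [Group Q] {f g : OneRel (rel k n) →* Q}
    (h : ∀ o, f (PresentedGroup.of o) = g (PresentedGroup.of o)) : f = g :=
  PresentedGroup.ext h

theorem bij {M k : ℕ} {Q : Type*} [Group Q] (hQ : Layered M Q) :
    Function.Bijective (fun f : OneRel (rel k (Nat.factorial M)) →* Q => f.comp (sec k (Nat.factorial M))) := by
  constructor
  · intro f g hfg
    simp only at hfg
    apply hom_ext_gen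
    intro o
    rcases o with _ | i
    · have := DFunLike.congr_fun hfg (FreeGroup.of 0)
      simpa [sec] using this
    · by_cases hi : i = 0
      · subst hi; rw [kill hQ f, kill hQ g]
      · have := DFunLike.congr_fun hfg (FreeGroup.of i)
        simpa [sec, hi] using this
  · intro g
    obtain ⟨f, h1, h2, h3⟩ := exists_hom (k := k) (n := Nat.factorial M) (g (FreeGroup.of 0)) 1
      (fun i => g (FreeGroup.of i)) (by simp)
    refine ⟨f, ?_⟩
    ext i
    by_cases hi : i = 0
    · subst hi; simp [sec, h1]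
    · simp [sec, hi, h3 i hi]

theorem surj_iff {M k : ℕ} {Q : Type*} [Group Q] (hQ : Layered M Q)
    (f : OneRel (rel k (Nat.factorial M)) →* Q) :
    Function.Surjective f ↔ Function.Surjective (f.comp (sec k (Nat.factorial M))) := by
  constructor
  · intro hf y
    have key : ∀ w : FreeGroup (Option (Fin (k + 1))),
        f (PresentedGroup.mk _ w) ∈ (f.comp (sec k (Nat.factorial M))).range := by
      intro w
      induction w using FreeGroup.induction_on with
      | C1 => rw [MonoidHom.map_one, MonoidHom.map_one]; exact Subgroup.one_mem _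
      | of o =>
        rcases o with _ | i
        · exact ⟨FreeGroup.of 0, by simp [sec]; rfl⟩
        · by_cases hi : i = 0
          · subst hi
            have := kill hQ f
            exact ⟨1, by rw [MonoidHom.map_one]; exact this.symm⟩
          · exact ⟨FreeGroup.of i, by simp [sec, hi]; rfl⟩
      | inv_of o ih => rw [MonoidHom.map_inv, MonoidHom.map_inv]; exact Subgroup.inv_mem _ ih
      | mul a b ha hb => rw [MonoidHom.map_mul, MonoidHom.map_mul]; exact Subgroup.mul_mem _ ha hb
    obtain ⟨g, hg⟩ := hf y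
    obtain ⟨w, hw⟩ := PresentedGroup.mk_surjective _ g
    have := key w
    rw [hw, hg] at this
    exact this
  · intro h
    exact Function.Surjective.of_comp (g := sec k (Nat.factorial M)) h

theorem not_free (k n : ℕ) (hn : 1 ≤ n) : ¬ IsFreeGroup (OneRel (rel k n)) := by
  intro h
  apply x_ne_one k n hn
  exact seq_free n (fun i => PresentedGroup.mk {rel k n} (xi k i))
    (seq_rel (MonoidHom.id (OneRel (rel k n)))) 0

theorem not_parafree (k n : ℕ) (hn : 1 ≤ n) : ¬ Parafree (OneRel (rel k n)) := by
  rintro ⟨h, -⟩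
  apply x_ne_one k n hn
  rw [← Subgroup.mem_bot, ← h, Subgroup.mem_iInf]
  intro m
  exact seq_lcs n (fun i => PresentedGroup.mk {rel k n} (xi k i))
    (seq_rel (MonoidHom.id (OneRel (rel k n)))) m 0

/-- If the relator is an automorphic image of a letter then the group embeds in a free group. -/
theorem free_of_primitive {X : Type*} [DecidableEq X] (φ : FreeGroup X ≃* FreeGroup X) (z : X) :
    ∃ ρ : OneRel (φ (FreeGroup.of z)) →* FreeGroup X, Function.Injective ρ := by
  let π : FreeGroup X →* FreeGroup X := FreeGroup.lift fun x => if x = z then 1 else FreeGroup.of x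
  have h1 : ∀ r ∈ ({φ (FreeGroup.of z)} : Set (FreeGroup X)), FreeGroup.lift (fun x => π (φ.symm (FreeGroup.of x))) r = 1 := by
    intro r hr
    rw [Set.mem_singleton_iff] at hr
    subst hr
    have e : FreeGroup.lift (fun x => π (φ.symm (FreeGroup.of x))) = π.comp φ.symm.toMonoidHom := by
      ext x; simp
    rw [e]; simp [π]
  refine ⟨PresentedGroup.toGroup h1, ?_⟩
  set ρ := PresentedGroup.toGroup h1 with hρ
  let mk := PresentedGroup.mk {φ (FreeGroup.of z)}
  have e1 : ∀ g, ρ (mk g) = π (φ.symm g) := by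
    intro g
    have : ρ.comp mk = π.comp φ.symm.toMonoidHom := by
      ext x
      change PresentedGroup.toGroup h1 (PresentedGroup.of x) = _
      rw [PresentedGroup.toGroup.of]; rfl
    exact DFunLike.congr_fun this g
  have e2 : ∀ g, mk (φ (π g)) = mk (φ g) := by
    intro g
    have : (mk.comp φ.toMonoidHom).comp π = mk.comp φ.toMonoidHom := by
      ext x
      by_cases hx : x = z
      · subst hx
        simp only [MonoidHom.comp_apply, π, FreeGroup.lift_apply_of, if_true, MonoidHom.map_one]
        exact (PresentedGroup.one_of_mem (rels := {φ (FreeGroup.of x)}) (Set.mem_singleton _)).symm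
      · simp [π, hx]
    exact DFunLike.congr_fun this g
  intro a b hab
  obtain ⟨a, rfl⟩ := PresentedGroup.mk_surjective _ a
  obtain ⟨b, rfl⟩ := PresentedGroup.mk_surjective _ b
  have h3 : π (φ.symm a) = π (φ.symm b) := by rw [← e1, ← e1]; exact hab
  have h4 := congrArg (fun g => mk (φ g)) h3
  simp only [e2, MulEquiv.apply_symm_apply] at h4
  exact h4

/-- the inverse of a primitive element is primitive -/
theorem IsPrimitive.inv {X : Type*} [DecidableEq X] {p : FreeGroup X} (hp : IsPrimitive p) :
    IsPrimitive p⁻¹ := by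
  obtain ⟨φ, z, rfl⟩ := hp
  let ι : FreeGroup X ≃* FreeGroup X := MonoidHom.toMulEquiv
    (FreeGroup.lift fun x => if x = z then (FreeGroup.of z)⁻¹ else FreeGroup.of x)
    (FreeGroup.lift fun x => if x = z then (FreeGroup.of z)⁻¹ else FreeGroup.of x)
    (by ext x; by_cases h : x = z <;> simp [h]) (by ext x; by_cases h : x = z <;> simp [h])
  refine ⟨ι.trans φ, z, ?_⟩
  simp [ι]

theorem not_heightZero (k n : ℕ) (hn : 1 ≤ n) : ¬ HeightZero (rel k n) := by
  rintro ⟨p, m, hp, hr⟩
  -- exponent sum of the letter `x`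
  let e : FreeGroup (Option (Fin (k + 1))) →* Multiplicative ℤ :=
    FreeGroup.lift fun o => if o = some 0 then Multiplicative.ofAdd (1 : ℤ) else 1
  have h1 : e (rel k n) = Multiplicative.ofAdd (-1 : ℤ) := by
    have hx : ∀ i, e (xi k i) = Multiplicative.ofAdd (1 : ℤ) := by
      intro i; simp [xi, e]
    rw [rel]
    simp only [MonoidHom.map_mul, MonoidHom.map_inv, MonoidHom.map_pow, hx]
    rw [mul_inv_cancel_right, mul_inv_cancel, one_pow, mul_one]
    rfl
  have hprim : IsPrimitive (rel k n) := by
    rw [hr, MonoidHom.map_zpow] at h1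
    have h2 : m * Multiplicative.toAdd (e p) = -1 := by
      have := congrArg Multiplicative.toAdd h1
      simpa using this
    rcases Int.eq_one_or_neg_one_of_mul_eq_neg_one h2 with h3 | h3
    · rw [hr, h3, zpow_one]; exact hp
    · rw [hr, h3, zpow_neg, zpow_one]; exact hp.inv
  obtain ⟨φ, z, hz⟩ := hprim
  have : ∃ ρ : OneRel (rel k n) →* FreeGroup (Option (Fin (k + 1))), Function.Injective ρ := by
    rw [hz]; exact free_of_primitive φ z
  obtain ⟨ρ, hρ⟩ := this
  apply x_ne_one k n hn
  apply hρ
  rw [ρ.map_one]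
  exact seq_free n (fun i => ρ (PresentedGroup.mk {rel k n} (xi k i))) (seq_rel ρ) 0

/-! ### The rewriting -/

theorem primitive_of {Y : Type*} [DecidableEq Y] (z : Y) (W : FreeGroup Y)
    (h1 : FreeGroup.lift (fun y => if y = z then (FreeGroup.of z)⁻¹ * W else FreeGroup.of y) W = W)
    (h2 : FreeGroup.lift (fun y => if y = z then W * (FreeGroup.of z)⁻¹ else FreeGroup.of y) W = W) :
    IsPrimitive ((FreeGroup.of z)⁻¹ * W) := by
  refine ⟨MonoidHom.toMulEquiv
    (FreeGroup.lift (fun y => if y = z then (FreeGroup.of z)⁻¹ * W else FreeGroup.of y))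
    (FreeGroup.lift (fun y => if y = z then W * (FreeGroup.of z)⁻¹ else FreeGroup.of y)) ?_ ?_, z, ?_⟩
  · ext y
    by_cases hy : y = z
    · subst hy
      simp only [MonoidHom.comp_apply, FreeGroup.lift_apply_of, if_true, MonoidHom.map_mul, MonoidHom.map_inv, h2,
        MonoidHom.id_apply]
      group
    · simp [hy]
  · ext y
    by_cases hy : y = z
    · subst hy
      simp only [MonoidHom.comp_apply, FreeGroup.lift_apply_of, if_true, MonoidHom.map_mul, MonoidHom.map_inv, h1,
        MonoidHom.id_apply]
      group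
    · simp [hy]
  · simp

section
variable (k : ℕ)

/-- lower ends of the ranges of indices -/
def lo : {x : Option (Fin (k + 1)) // x ≠ none} → ℤ := fun _ => 0

/-- upper ends of the ranges of indices -/
def hi : {x : Option (Fin (k + 1)) // x ≠ none} → ℤ := fun x => if x.1 = some 0 then 2 else 0

/-- the letter `x_j` -/
def zz (j : ℤ) (h0 : 0 ≤ j) (h2 : j ≤ 2) : Window none (lo k) (hi k) :=
  ⟨(⟨some 0, Option.some_ne_none _⟩, j), by simp only [lo]; exact h0, by simp only [hi, if_true]; exact h2⟩

/-- the relator of the base group -/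
def base (n : ℕ) : FreeGroup (Window none (lo k) (hi k)) :=
  (FreeGroup.of (zz k 1 (by norm_num) (by norm_num)))⁻¹ *
    (FreeGroup.of (zz k 0 (by norm_num) (by norm_num)) * FreeGroup.of (zz k 2 (by norm_num) (by norm_num)) *
      (FreeGroup.of (zz k 0 (by norm_num) (by norm_num)))⁻¹ *
      (FreeGroup.of (zz k 2 (by norm_num) (by norm_num)))⁻¹) ^ n

theorem zz_ne (i j : ℤ) (h0 : 0 ≤ i) (h2 : i ≤ 2) (h0' : 0 ≤ j) (h2' : j ≤ 2) (h : i ≠ j) :
    zz k i h0 h2 ≠ zz k j h0' h2' := by
  intro h'
  apply h
  have := congrArg (fun p => p.1.2) h'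
  exact this

theorem unwind_base (n : ℕ) : unwind none (lo k) (hi k) (base k n) = rel k n := by
  have h : ∀ j h0 h2, unwind none (lo k) (hi k) (FreeGroup.of (zz k j h0 h2)) = xi k j := by
    intro j h0 h2
    simp [unwind, zz, xi]
  rw [base, rel]
  simp only [MonoidHom.map_mul, MonoidHom.map_inv, MonoidHom.map_pow, h]

theorem base_primitive (n : ℕ) : IsPrimitive (base k n) := by
  have h0 := zz_ne k 0 1 (by norm_num) (by norm_num) (by norm_num) (by norm_num) (by norm_num)
  have h2 := zz_ne k 2 1 (by norm_num) (by norm_num) (by norm_num) (by norm_num) (by norm_num)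
  apply primitive_of
  · simp [h0, h2]
  · simp [h0, h2]

/-- the reduced word of the relator of the base group -/
theorem base_word (n : ℕ) :
    FreeGroup.IsCyclicallyReduced (base k (n + 1)).toWord ∧
      (∃ p ∈ (base k (n + 1)).toWord, p.1 = zz k 0 (by norm_num) (by norm_num)) ∧
      (∃ p ∈ (base k (n + 1)).toWord, p.1 = zz k 2 (by norm_num) (by norm_num)) := by
  set z0 := zz k 0 (by norm_num) (by norm_num) with hz0
  set z1 := zz k 1 (by norm_num) (by norm_num) with hz1
  set z2 := zz k 2 (by norm_num) (by norm_num) with hz2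
  have h01 : z0 ≠ z1 := zz_ne k 0 1 _ _ _ _ (by norm_num)
  have h02 : z0 ≠ z2 := zz_ne k 0 2 _ _ _ _ (by norm_num)
  have h12 : z1 ≠ z2 := zz_ne k 1 2 _ _ _ _ (by norm_num)
  let C : List (Window none (lo k) (hi k) × Bool) := [(z0, true), (z2, true), (z0, false), (z2, false)]
  let L : List (Window none (lo k) (hi k) × Bool) := [(z1, false)] ++ (List.replicate (n + 1) C).flatten ++ []
  have hC : FreeGroup.IsCyclicallyReduced C := by
    rw [FreeGroup.isCyclicallyReduced_iff]
    refine ⟨?_, ?_⟩
    · simp only [C, FreeGroup.isReduced_cons_cons, FreeGroup.IsReduced.singleton, and_true]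
      exact ⟨fun h => absurd h h02, fun h => absurd h h02.symm, fun h => absurd h h02⟩
    · simp [C, h02.symm]
  have hL : FreeGroup.IsReduced L := by
    apply FreeGroup.IsReduced.append_flatten_replicate_append hC _ (by omega)
    simp only [C, List.cons_append, List.nil_append, List.append_nil, FreeGroup.isReduced_cons_cons,
      FreeGroup.IsReduced.singleton, and_true]
    exact ⟨fun h => absurd h h01.symm, fun h => absurd h h02, fun h => absurd h h02.symm, fun h => absurd h h02⟩
  have hpow : ∀ m : ℕ, FreeGroup.mk (List.replicate m C).flatten = (FreeGroup.of z0 * FreeGroup.of z2 *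
      (FreeGroup.of z0)⁻¹ * (FreeGroup.of z2)⁻¹) ^ m := by
    intro m
    induction m with
    | zero => rfl
    | succ m ih =>
      rw [List.replicate_succ, List.flatten_cons, ← FreeGroup.mul_mk, ih, pow_succ']
      rfl
  have hbase : base k (n + 1) = FreeGroup.mk L := by
    simp only [L, List.append_nil, ← FreeGroup.mul_mk, hpow]
    rfl
  have hw : (base k (n + 1)).toWord = L := by
    rw [hbase, FreeGroup.toWord_mk, hL.reduce_eq]
  rw [hw]
  refine ⟨?_, ⟨(z0, true), ?_, rfl⟩, ⟨(z2, true), ?_, rfl⟩⟩
  · rw [FreeGroup.isCyclicallyReduced_iff]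
    refine ⟨hL, ?_⟩
    intro a ha b hb
    have hlast : L.getLast? = some (z2, false) := by
      have hL2 : L = ((z1, false) :: (List.replicate n C).flatten ++
          [(z0, true), (z2, true), (z0, false)]) ++ [(z2, false)] := by
        simp [L, C, List.replicate_succ', List.flatten_append]
      rw [hL2]
      exact List.getLast?_concat
    have hhead : L.head? = some (z1, false) := by simp [L]
    rw [hlast] at ha
    rw [hhead] at hb
    simp only [Option.mem_def, Option.some.injEq] at ha hb
    subst ha; subst hb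
    intro _; rfl
  · simp [L, C, List.replicate_succ]
  · simp [L, C, List.replicate_succ]

theorem rewriting (n : ℕ) (hn : 1 ≤ n) :
    Rewriting none (lo k) (hi k) (rel k n) (base k n) := by
  obtain ⟨m, rfl⟩ : ∃ m, n = m + 1 := ⟨n - 1, by omega⟩
  obtain ⟨h1, ⟨p0, hp0, e0⟩, ⟨p2, hp2, e2⟩⟩ := base_word k m
  have hx : ∀ x, lo k x < hi k x → x = ⟨some 0, Option.some_ne_none _⟩ := by
    intro x hx
    simp only [lo, hi] at hx
    split_ifs at hx with h
    · exact Subtype.ext h
    · omega
  refine ⟨?_, h1, ?_, ?_, ?_, ?_⟩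
  · intro x; simp only [lo, hi]; split_ifs <;> norm_num
  · rw [unwind_base]
  · intro x h
    rw [hx x h]
    exact ⟨p0, hp0, by rw [e0]; rfl⟩
  · intro x h
    rw [hx x h]
    exact ⟨p2, hp2, by rw [e2]; simp [zz, hi]⟩
  · exact ⟨⟨some 0, Option.some_ne_none _⟩, by simp [lo, hi]⟩

end

theorem heightOne (k n : ℕ) (hn : 1 ≤ n) : HeightOne (rel k n) :=
  ⟨not_heightZero k n hn, none, lo k, hi k, base k n, rewriting k n hn,
    base k n, 1, base_primitive k n, (zpow_one _).symm⟩

/-! ### Examples of layered groups -/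

theorem layered_of_card_le {M : ℕ} {Q : Type*} [Group Q] [Finite Q] (h : Nat.card Q ≤ M) :
    Layered M Q := by
  refine ⟨1, fun i => if i = 0 then ⊤ else ⊥, by simp, by simp, ?_⟩
  intro i hi
  obtain rfl : i = 0 := by omega
  refine ⟨by simp, by simp only [zero_add, one_ne_zero, if_false, if_true]; infer_instance, Or.inr ?_⟩
  simp only [zero_add, one_ne_zero, if_false, if_true, Subgroup.relIndex_bot_left, Subgroup.card_top]
  exact ⟨Nat.card_pos.ne', h⟩

theorem layered_of_isSolvable {M : ℕ} {Q : Type*} [Group Q] (h : IsSolvable Q) : Layered M Q := by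
  obtain ⟨n, hn⟩ := h.solvable
  refine ⟨n, derivedSeries Q, rfl, hn, fun i _ => ⟨?_, ?_, Or.inl ?_⟩⟩
  · exact derivedSeries_antitone Q (Nat.le_succ i)
  · infer_instance
  · intro a ha b hb
    rw [derivedSeries_succ, ← commutatorElement_def]
    exact Subgroup.commutator_mem_commutator ha hb

universe u

/-- For every `M` and every rank `k + 1` the one-relator group `G` on `t, x, y_1, .., y_k` with the
relator `x_1 ^ (-1) * [x_0, x_2] ^ (M!)`, `x_i = t ^ i * x * t ^ (-i)`, has height one and is
neither free nor parafree, but restriction along a homomorphism from the free group of rank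
`k + 1` to `G` is a bijection between the homomorphisms to any layered group `Q`, and it preserves
and reflects surjectivity. All soluble groups and all finite groups of order at most `M` are
layered. -/
theorem result (M k : ℕ) :
    HeightOne (rel k (Nat.factorial M)) ∧
    ¬ IsFreeGroup (OneRel (rel k (Nat.factorial M))) ∧
    ¬ Parafree (OneRel (rel k (Nat.factorial M))) ∧
    (∀ (Q : Type u) [Group Q], Layered M Q →
      Function.Bijective (fun f : OneRel (rel k (Nat.factorial M)) →* Q =>
        f.comp (sec k (Nat.factorial M))) ∧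
      ∀ f : OneRel (rel k (Nat.factorial M)) →* Q,
        Function.Surjective f ↔ Function.Surjective (f.comp (sec k (Nat.factorial M)))) ∧
    (∀ (Q : Type u) [Group Q], IsSolvable Q → Layered M Q) ∧
    (∀ (Q : Type u) [Group Q], Finite Q → Nat.card Q ≤ M → Layered M Q) :=
  ⟨heightOne k _ (Nat.factorial_pos M), not_free k _ (Nat.factorial_pos M),
    not_parafree k _ (Nat.factorial_pos M), fun Q _ hQ => ⟨bij hQ, surj_iff hQ⟩,
    fun Q _ h => layered_of_isSolvable h, fun Q _ _ h => layered_of_card_le h⟩

end Pool.Agent.Results.MP_c33da0_al.BoundedImages
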