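import Mathlib
import Pool.Agent.HO.PowB

set_option linter.all false
set_option autoImplicit false

/-!
# MP_c33da0_al: a necessary condition for the finite images of a free group

`r` is a nontrivial word in the letters a (letter 0) and t_1, .., t_m which becomes trivial when a
is deleted (`killa`). The letters t_i are specialised to words ζ_i in new letters t, s_1, .., s_k
(`zet`), and the specialised relator is conjugate to `relE n k p * w`, where `relE n k p` is the
word p in a_0, .., a_n, s_1, .., s_k with a_i replaced by t^i a t^-i, and w lies in the normal
closure of the commutators [t^i a t^-i, a], [t^i a t^-i, s_l] with 0 < i < n (`near`).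
`ex n k p i` is the exponent sum of a_i in p, and `outJ n k j p` is the word p with the letters a_j
and a_1, .., a_(n-1) deleted. `nearA` is the set of the commutators [t^i a t^-i, a], 0 < i < n,
alone, and `powJ n k j μ p` is p with a_j deleted and every other a_i replaced by the power c^(μ i)
of one new letter c.
-/

namespace Pool.Agent.Results.MP_c33da0_al.DeletedWord

open Pool.Agent.HO

/-- If the group has the finite images of a free group of finite rank then the exponents of
a_0, .., a_n in p are all zero but one, which is 1 or -1, say that of a_j, and p becomes trivial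
when the letters a_j and a_1, .., a_(n-1) are deleted. If moreover w lies in the normal closure of
the commutators of a with the t^i a t^-i, 0 < i < n, then p also becomes trivial when a_j is deleted
and the other a_i are replaced by arbitrary powers of one new letter. -/
theorem result (m n k : ℕ) (hn : 0 < n) (r : FreeGroup (Fin (m + 1))) (hr1 : r ≠ 1)
    (hr : killa m r = 1) (ζ : Fin m → FreeGroup (Fin (k + 1)))
    (p : FreeGroup (Fin (n + 1) ⊕ Fin k)) (w : FreeGroup (Fin (k + 2)))
    (hw : w ∈ Subgroup.normalClosure (near n k))
    (hc : IsConj (zet m k ζ r) (relE n k p * w)) (d : ℕ)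
    (hs : SameFiniteImages (PresentedGroup ({r} : Set (FreeGroup (Fin (m + 1)))))
      (FreeGroup (Fin d))) :
    ∃ (j : Fin (n + 1)) (ε : ℤ), (ε = 1 ∨ ε = -1) ∧
      (∀ i, ex n k p i = if i = j then ε else 0) ∧ outJ n k j p = 1 ∧
      (w ∈ Subgroup.normalClosure (nearA n k) → ∀ μ : Fin (n + 1) → ℤ, powJ n k j μ p = 1) :=
  necessaryD m n k hn r hr1 hr ζ p w hw hc d hs

end Pool.Agent.Results.MP_c33da0_al.DeletedWord
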